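import Pool.Agent.H329R3.NU.Stmts

/-!
# Task WeakId: the weak identity for smooth states
-/

set_option autoImplicit false

open MeasureTheory Set Filter Topology

namespace Pool.Agent.H610R3.NU

open Pool.Agent.H329R3.NU

theorem integrand_eq (κ : ℝ) (h Φ : ℝ × ℝ → ℝ) (z : ℝ × ℝ) (hz : z ∈ Om) :
    W h z * z.1 ^ 2 * dt Φ z + (Fl κ h z - κ * W h z) * z.1 ^ 3 * dy Φ z =
      z.1 ^ 2 * dt Φ z + (dy h z * dt Φ z - dt h z * dy Φ z) := by
  have h0 : z.1 ≠ 0 := ne_of_gt hz.1.1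
  unfold Fl W
  field_simp
  ring

theorem cont_dir {f : ℝ × ℝ → ℝ} (hf : ContDiff ℝ 1 f) (v : ℝ × ℝ) :
    Continuous (fun z => fderiv ℝ f z v) :=
  (hf.continuous_fderiv (by simp)).clm_apply continuous_const

theorem cpt_dir {f : ℝ × ℝ → ℝ} (hc : HasCompactSupport f) (v : ℝ × ℝ) :
    HasCompactSupport (fun z => fderiv ℝ f z v) := hc.fderiv_apply ℝ v

theorem diff_dir {f : ℝ × ℝ → ℝ} (hf : ContDiff ℝ 2 f) (v : ℝ × ℝ) :
    ContDiff ℝ 1 (fun z => fderiv ℝ f z v) :=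
  (hf.fderiv_right (m := 1) (by norm_num)).clm_apply contDiff_const

theorem dir_dir {f : ℝ × ℝ → ℝ} (hf : ContDiff ℝ 2 f) (v w : ℝ × ℝ) (z : ℝ × ℝ) :
    fderiv ℝ (fun z => fderiv ℝ f z v) z w = fderiv ℝ (fderiv ℝ f) z w v := by
  have h1 : DifferentiableAt ℝ (fderiv ℝ f) z :=
    ((hf.fderiv_right (m := 1) (by norm_num)).differentiable (by simp)) z
  rw [fderiv_clm_apply h1 (differentiableAt_const v)]
  simp

theorem part_two {h Φ : ℝ × ℝ → ℝ} (hh : ContDiff ℝ 2 h) (hc : HasCompactSupport h)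
    (hΦ : ContDiff ℝ 1 Φ) :
    ∫ z, (dy h z * dt Φ z - dt h z * dy Φ z) = 0 := by
  have key : ∀ v w : ℝ × ℝ, Integrable (fun z => fderiv ℝ h z v * fderiv ℝ Φ z w) ∧
      ∫ z, fderiv ℝ h z v * fderiv ℝ Φ z w = - ∫ z, fderiv ℝ (fderiv ℝ h) z w v * Φ z := by
    intro v w
    have c1 : ContDiff ℝ 1 (fun z => fderiv ℝ h z v) := diff_dir hh v
    have s1 : HasCompactSupport (fun z => fderiv ℝ h z v) := cpt_dir hc v
    have i1 : Integrable (fun z => fderiv ℝ h z v * fderiv ℝ Φ z w) :=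
      (c1.continuous.mul (cont_dir hΦ w)).integrable_of_hasCompactSupport s1.mul_right
    have i2 : Integrable (fun z => fderiv ℝ (fun z => fderiv ℝ h z v) z w * Φ z) :=
      ((cont_dir c1 w).mul hΦ.continuous).integrable_of_hasCompactSupport
        ((cpt_dir s1 w).mul_right)
    have i3 : Integrable (fun z => fderiv ℝ h z v * Φ z) :=
      (c1.continuous.mul hΦ.continuous).integrable_of_hasCompactSupport s1.mul_right
    refine ⟨i1, ?_⟩
    rw [integral_mul_fderiv_eq_neg_fderiv_mul_of_integrable i2 i1 i3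
      (fun x _ => (c1.differentiable (by simp)) x) (fun x _ => (hΦ.differentiable (by simp)) x)]
    congr 1
    refine integral_congr_ae (Eventually.of_forall fun z => ?_)
    simp only [dir_dir hh v w z]
  have k1 := key (1, 0) (0, 1)
  have k2 := key (0, 1) (1, 0)
  unfold dy dt
  rw [integral_sub k1.1 k2.1, k1.2, k2.2]
  have hs : ∀ z, fderiv ℝ (fderiv ℝ h) z ((0 : ℝ), (1 : ℝ)) ((1 : ℝ), (0 : ℝ)) =
      fderiv ℝ (fderiv ℝ h) z ((1 : ℝ), (0 : ℝ)) ((0 : ℝ), (1 : ℝ)) := fun z =>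
    (hh.contDiffAt.isSymmSndFDerivAt (n := 2) (by simp)) _ _
  simp only [hs, sub_self]

theorem part_one {Φ : ℝ × ℝ → ℝ} (hΦ : Tst Φ) :
    (∫ z in Om, z.1 ^ 2 * dt Φ z) + ∫ y in Ioc (0 : ℝ) 1, y ^ 2 * Φ (y, 0) = 0 := by
  have c1 : Continuous (fun z : ℝ × ℝ => z.1 ^ 2 * dt Φ z) :=
    (continuous_fst.pow 2).mul (cont_dir hΦ.smooth _)
  have i1 : Integrable (fun z : ℝ × ℝ => z.1 ^ 2 * dt Φ z) :=
    c1.integrable_of_hasCompactSupport ((cpt_dir hΦ.cpt _).mul_left)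
  have e1 : ∫ z in Om, z.1 ^ 2 * dt Φ z =
      ∫ y in Ioo (0 : ℝ) 1, ∫ t in Ioo (0 : ℝ) 1, y ^ 2 * dt Φ (y, t) := by
    unfold Om
    rw [Measure.volume_eq_prod]
    refine setIntegral_prod _ ?_
    rw [← Measure.volume_eq_prod]
    exact i1.integrableOn
  have e2 : ∀ y : ℝ, ∫ t in Ioo (0 : ℝ) 1, y ^ 2 * dt Φ (y, t) = - (y ^ 2 * Φ (y, 0)) := by
    intro y
    rw [integral_const_mul, ← integral_Ioc_eq_integral_Ioo,
      ← intervalIntegral.integral_of_le zero_le_one]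
    have hd : ∀ t ∈ uIcc (0 : ℝ) 1, HasDerivAt (fun t : ℝ => Φ (y, t)) (dt Φ (y, t)) t := by
      intro t _
      have h1 : HasFDerivAt Φ (fderiv ℝ Φ (y, t)) (y, t) :=
        ((hΦ.smooth.differentiable (by simp)) (y, t)).hasFDerivAt
      have h2 : HasDerivAt (fun t : ℝ => ((y, t) : ℝ × ℝ)) ((0 : ℝ), (1 : ℝ)) t :=
        (hasDerivAt_const t y).prodMk (hasDerivAt_id t)
      exact h1.comp_hasDerivAt t h2
    have hcont : Continuous (fun t : ℝ => dt Φ (y, t)) :=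
      (cont_dir hΦ.smooth _).comp (continuous_const.prodMk continuous_id)
    rw [intervalIntegral.integral_eq_sub_of_hasDerivAt hd (hcont.intervalIntegrable _ _)]
    have h0 : Φ (y, 1) = 0 := by
      by_contra hne
      have := hΦ.supp (subset_tsupport _ hne)
      simp at this
    rw [h0]
    ring
  rw [e1]
  simp only [e2]
  rw [integral_neg, ← integral_Ioc_eq_integral_Ioo]
  ring

theorem taskWeakId : TaskWeakId := by
  intro κ h hh hc hs Φ hΦ
  have mO : MeasurableSet Om := measurableSet_Ioo.prod measurableSet_Ioo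
  have e1 : ∫ z in Om, (W h z * z.1 ^ 2 * dt Φ z + (Fl κ h z - κ * W h z) * z.1 ^ 3 * dy Φ z) =
      ∫ z in Om, (z.1 ^ 2 * dt Φ z + (dy h z * dt Φ z - dt h z * dy Φ z)) :=
    setIntegral_congr_fun mO fun z hz => integrand_eq κ h Φ z hz
  have hh1 : ContDiff ℝ 1 h := hh.of_le (by norm_num)
  have i1 : Integrable (fun z : ℝ × ℝ => z.1 ^ 2 * dt Φ z) :=
    ((continuous_fst.pow 2).mul (cont_dir hΦ.smooth _)).integrable_of_hasCompactSupport
      ((cpt_dir hΦ.cpt _).mul_left)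
  have i2 : Integrable (fun z : ℝ × ℝ => dy h z * dt Φ z - dt h z * dy Φ z) := by
    refine Integrable.sub ?_ ?_
    · exact ((cont_dir hh1 _).mul (cont_dir hΦ.smooth _)).integrable_of_hasCompactSupport
        ((cpt_dir hc _).mul_right)
    · exact ((cont_dir hh1 _).mul (cont_dir hΦ.smooth _)).integrable_of_hasCompactSupport
        ((cpt_dir hc _).mul_right)
  have e2 : ∫ z in Om, (dy h z * dt Φ z - dt h z * dy Φ z) = 0 := by
    rw [setIntegral_eq_integral_of_forall_compl_eq_zero, part_two hh hc hΦ.smooth]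
    intro z hz
    have hz' : z ∉ tsupport h := fun h' => hz (hs h')
    have h0 : fderiv ℝ h z = 0 := by
      have : z ∉ tsupport (fderiv ℝ h) := fun h' => hz' (tsupport_fderiv_subset ℝ h')
      exact image_eq_zero_of_notMem_tsupport this
    unfold dy dt
    rw [h0]
    simp
  rw [e1, integral_add i1.integrableOn i2.integrableOn, e2, add_zero]
  exact part_one hΦ

end Pool.Agent.H610R3.NU
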